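import Mathlib
import Pool.Agent.Helper67.OWN.FDScale

/-!
For every bounded open set `Ω` of `ℝ³` and every point `p` of `Ω` there is a `1`-Lipschitz map
`f : ℝ³ → ℝ³` with `J_f > 0` almost everywhere in `Ω`, whose distortion function `K` satisfies
`∫_Ω K² log^α (e + K) < ∞` for every `α ≤ 1 = n - 2`, and even
`∫_Ω K² log (e + K) (log (e + log (e + K)))^β < ∞` for every `β < 1`, and whose zero set in `Ω` is
the part in `Ω` of a straight line through `p`. So `f` is not discrete.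
-/

set_option autoImplicit false

open MeasureTheory

namespace Pool.Agent.Results.MP_da5d20_an.NonDiscreteEndpoint

theorem result (Ω : Set (EuclideanSpace ℝ (Fin 3))) (hΩ : IsOpen Ω)
    (hb : Bornology.IsBounded Ω) (p : EuclideanSpace ℝ (Fin 3)) (hp : p ∈ Ω) :
    ∃ (f : EuclideanSpace ℝ (Fin 3) → EuclideanSpace ℝ (Fin 3))
      (K : EuclideanSpace ℝ (Fin 3) → ℝ),
      LipschitzWith 1 f ∧
      (∀ᵐ x ∂(volume.restrict Ω), DifferentiableAt ℝ f x ∧ 0 < (fderiv ℝ f x).det) ∧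
      (∀ x, K x = if 0 < (fderiv ℝ f x).det
        then ‖fderiv ℝ f x‖ ^ 3 / (fderiv ℝ f x).det else 1) ∧
      (∀ α : ℝ, α ≤ 1 → IntegrableOn (fun x => K x ^ 2 * Real.log (Real.exp 1 + K x) ^ α) Ω) ∧
      (∀ β : ℝ, β < 1 → IntegrableOn (fun x => K x ^ 2 * Real.log (Real.exp 1 + K x) *
        Real.log (Real.exp 1 + Real.log (Real.exp 1 + K x)) ^ β) Ω) ∧
      Ω ∩ f ⁻¹' {0} = {x ∈ Ω | x 0 = p 0 ∧ x 1 = p 1} ∧
      ¬ IsDiscrete (Ω ∩ f ⁻¹' {0}) := by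
  obtain ⟨f, h1, h2, h3, h4, h5, h6⟩ := Pool.Agent.Helper67.OWN.main Ω hΩ hb p hp
  exact ⟨f, Pool.Agent.Helper67.OWN.Kd f, h1, h2, fun x => rfl, h3, h4, h5, h6⟩

end Pool.Agent.Results.MP_da5d20_an.NonDiscreteEndpoint
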